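import Pool.Agent.H77.BC.Targets

/-!
# Board bcp_modules, row CMG: transvections are commutators in stabilizers
-/

set_option autoImplicit false

open Set Matrix

namespace Pool.Agent.H78.BCP

open Pool.Agent.H77.BC

variable {K : Type} [Field K] {k : ℕ}

theorem tv_mul (w φ ψ : Fin k → K) : (1 + vecMulVec w φ) * (1 + vecMulVec w ψ)
    = 1 + vecMulVec w (φ + ψ + (φ ⬝ᵥ w) • ψ) := by
  rw [add_mul, one_mul, mul_add, mul_one, vecMulVec_mul_vecMulVec, vecMulVec_add, vecMulVec_add]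
  abel

/-- the transvection `1 + w ⊗ φ` -/
def tv (w φ ψ : Fin k → K) (h : φ + ψ + (φ ⬝ᵥ w) • ψ = 0) (h' : ψ + φ + (ψ ⬝ᵥ w) • φ = 0) :
    GL (Fin k) K :=
  ⟨1 + vecMulVec w φ, 1 + vecMulVec w ψ, by rw [tv_mul, h, vecMulVec_zero, add_zero], by
    rw [tv_mul, h', vecMulVec_zero, add_zero]⟩

theorem pf_CMG : CMG := by
  classical
  intro K _ _ k w η ζ hη hζ
  obtain ⟨a, ha⟩ := Infinite.exists_notMem_finset ({0, -1} : Finset K)
  have ha0 : a ≠ 0 := fun h => ha (by rw [h]; exact Finset.mem_insert_self _ _)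
  have ha1 : 1 + a ≠ 0 := fun h => ha (by
    rw [eq_neg_of_add_eq_zero_right h]
    exact Finset.mem_insert_of_mem (Finset.mem_singleton_self _))
  have e1 : (a • ζ) ⬝ᵥ w = a := by rw [smul_dotProduct, hζ, smul_eq_mul, mul_one]
  have e2 : ((-(a / (1 + a))) • ζ) ⬝ᵥ w = -(a / (1 + a)) := by
    rw [smul_dotProduct, hζ, smul_eq_mul, mul_one]
  have e3 : (a⁻¹ • η) ⬝ᵥ w = 0 := by rw [smul_dotProduct, hη, smul_zero]
  have e4 : (-(a⁻¹ • η)) ⬝ᵥ w = 0 := by rw [neg_dotProduct, e3, neg_zero]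
  refine ⟨tv w (a • ζ) ((-(a / (1 + a))) • ζ) ?_ ?_, tv w (a⁻¹ • η) (-(a⁻¹ • η)) ?_ ?_, a, a⁻¹,
    rfl, rfl, ?_⟩
  · rw [e1, smul_smul, ← add_smul, ← add_smul]
    have : a + -(a / (1 + a)) + a * -(a / (1 + a)) = 0 := by
      field_simp
      ring
    rw [this, zero_smul]
  · rw [e2, smul_smul, ← add_smul, ← add_smul]
    have : -(a / (1 + a)) + a + -(a / (1 + a)) * a = 0 := by
      field_simp
      ring
    rw [this, zero_smul]
  · rw [e3, zero_smul, add_zero, add_neg_cancel]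
  · rw [e4, zero_smul, add_zero, neg_add_cancel]
  · set s := tv w (a • ζ) ((-(a / (1 + a))) • ζ) _ _ with hs
    set s' := tv w (a⁻¹ • η) (-(a⁻¹ • η)) _ _ with hs'
    have hsv : (s.val : Matrix (Fin k) (Fin k) K) = 1 + vecMulVec w (a • ζ) := rfl
    have hsv' : (s'.val : Matrix (Fin k) (Fin k) K) = 1 + vecMulVec w (a⁻¹ • η) := rfl
    have h1 : s.val * s'.val = (1 + vecMulVec w η) * (s'.val * s.val) := by
      rw [hsv, hsv', tv_mul, tv_mul, tv_mul, e1, e3, hη, zero_smul, zero_smul, add_zero, add_zero,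
        smul_smul, mul_inv_cancel₀ ha0, one_smul]
      refine congrArg (fun x => 1 + vecMulVec w x) ?_
      abel
    have h2 : ((s * s' * s⁻¹ * s'⁻¹).val : Matrix (Fin k) (Fin k) K)
        = (1 + vecMulVec w η) * ((s' * s * s⁻¹ * s'⁻¹).val) := by
      rw [Units.val_mul, Units.val_mul, Units.val_mul, h1, Units.val_mul, Units.val_mul,
        Units.val_mul]
      simp only [Matrix.mul_assoc]
    rw [h2, mul_assoc s' s s⁻¹, mul_inv_cancel, mul_one, mul_inv_cancel, Units.val_one, mul_one]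

end Pool.Agent.H78.BCP
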