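import Pool.Agent.H77.BC.Targets

/-!
# Board bcp_modules, row EBA: two vectors
-/

set_option autoImplicit false

open Set Matrix

namespace Pool.Agent.H78.BCP

open Pool.Agent.H77.BC

theorem exists_dual {K : Type} [Field K] {k : ℕ} (v w u : Fin k → K)
    (h : ∀ a b : K, w ≠ a • v + b • u) :
    ∃ φ : Fin k → K, φ ⬝ᵥ v = 0 ∧ φ ⬝ᵥ u = 0 ∧ φ ⬝ᵥ w = 1 := by
  have hw : w ∉ Submodule.span K {v, u} := by
    intro hw
    obtain ⟨a, b, hab⟩ := Submodule.mem_span_pair.1 hw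
    exact h a b hab.symm
  obtain ⟨f, hf, hp⟩ := Submodule.exists_dual_map_eq_bot_of_notMem hw inferInstance
  have hz : ∀ y ∈ Submodule.span K {v, u}, f y = 0 := by
    intro y hy
    have := Submodule.mem_map_of_mem (f := f) hy
    rw [hp] at this
    exact (Submodule.mem_bot K).1 this
  have hdot : ∀ y : Fin k → K, (fun i => f (Pi.single i 1) * (f w)⁻¹) ⬝ᵥ y = f y * (f w)⁻¹ := by
    intro y
    rw [LinearMap.pi_apply_eq_sum_univ f y, Finset.sum_mul, dotProduct]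
    refine Finset.sum_congr rfl fun i _ => ?_
    have : (fun j => if i = j then (1 : K) else 0) = Pi.single i 1 := by
      funext j
      rw [Pi.single_apply]
      by_cases hij : i = j
      · rw [if_pos hij, if_pos hij.symm]
      · rw [if_neg hij, if_neg (Ne.symm hij)]
    rw [this, smul_eq_mul]
    ring
  refine ⟨fun i => f (Pi.single i 1) * (f w)⁻¹, ?_, ?_, ?_⟩
  · rw [hdot, hz v (Submodule.subset_span (by simp)), zero_mul]
  · rw [hdot, hz u (Submodule.subset_span (by simp)), zero_mul]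
  · rw [hdot, mul_inv_cancel₀ hf]

theorem pf_EBA : EBA := by
  intro K _ k H v w u _hv _hw h1 h2 hwu ψ hψw hψv hψ
  obtain ⟨φ, hφv, hφu, hφw⟩ := exists_dual v w u hwu
  obtain ⟨Y, hY, hYv⟩ := hψ
  refine h2 ψ fun t => ?_
  obtain ⟨X, hX, hXv⟩ := h1 (t • φ) (by rw [smul_dotProduct, hφv, smul_zero])
    (by rw [smul_dotProduct, hφu, smul_zero])
  have e1 : (t • φ) ⬝ᵥ w = t := by rw [smul_dotProduct, hφw, smul_eq_mul, mul_one]
  have e2 : (t • ψ) ⬝ᵥ w = 0 := by rw [smul_dotProduct, hψw, smul_zero]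
  have e3 : (t • ψ) ⬝ᵥ v = 0 := by rw [smul_dotProduct, hψv, smul_zero]
  refine ⟨X * Y * X⁻¹ * Y⁻¹, H.mul_mem (H.mul_mem (H.mul_mem hX hY) (H.inv_mem hX)) (H.inv_mem hY),
    ?_⟩
  have hc : X.val * Y.val = (1 + vecMulVec v (t • ψ)) * (Y.val * X.val) := by
    rw [hXv, hYv]
    simp only [add_mul, mul_add, one_mul, mul_one, vecMulVec_mul_vecMulVec, e1, e2, e3, hψv,
      zero_smul, vecMulVec_zero, add_zero]
    abel
  have hcv : ((X * Y * X⁻¹ * Y⁻¹).val : Matrix (Fin k) (Fin k) K)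
      = (1 + vecMulVec v (t • ψ)) * ((Y * X * X⁻¹ * Y⁻¹).val) := by
    rw [Units.val_mul, Units.val_mul, Units.val_mul, hc, Units.val_mul, Units.val_mul,
      Units.val_mul]
    simp only [Matrix.mul_assoc]
  rw [hcv, mul_assoc Y X X⁻¹, mul_inv_cancel, mul_one, mul_inv_cancel, Units.val_one, mul_one]

end Pool.Agent.H78.BCP
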