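import Pool.Agent.H77.BC.Targets

/-!
# Board bcp_modules, row ECR: equality from the rank
-/

set_option autoImplicit false

open Set Matrix

namespace Pool.Agent.H78.BCP

open Pool.Agent.H77.BC

theorem pf_ECR {M : Type} (U : RU M) (hP : PVH U) : ECR U := by
  intro K _ _ _ _ hK k H hD hr v hv
  obtain ⟨⟨h1, h2⟩, h3, h4⟩ := hP k v hv
  rw [hK, mul_one] at h2 h4
  have hr' : k * k + k + 1 ≤ U.R (H : Set (GL (Fin (k + 1)) K)) := by
    have : (k + 1) * (k + 1) = k * k + k + 1 + k := by ring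
    omega
  exact ⟨fun hle => h1.2 H hle hD (by rw [h2]; exact hr'),
    fun hle => h3.2 H hle hD (by rw [h4]; exact hr')⟩

end Pool.Agent.H78.BCP
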