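import Pool.Agent.H77.BC.Targets

/-!
# Board bcp_modules, row EK: Theorem (E)
-/

set_option autoImplicit false

open Set Matrix

namespace Pool.Agent.H78.BCP

open Pool.Agent.H77.BC

theorem pf_EK {M : Type} (U : RU M) (hJ : CNJ U) (hM : MK U) (h2 : E2C U) (hE : ECR U)
    (ha : TYA U) (hb : TYB U) (hc : TYC U) (hT : TYV) (hA : EAA) (hB : EBB) (_hR : REC U)
    (_hV : RNV U) (_hRK : RKA U) : EK U := by
  intro K _ _ _ _ hK k hk
  induction k, hk using Nat.le_induction with
  | base => exact h2 hK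
  | succ k hk ih =>
    intro H hD hr
    have htype : ∀ v : Fin (k + 2) → K, v ≠ 0 → Ty0 H v ∨ Ty1 H v ∨ Tyk H v := by
      intro v hv
      obtain ⟨g, rfl⟩ := (hT H).1 v hv
      obtain ⟨hD', hR', -⟩ := hJ g H hD
      obtain ⟨t0, t1, tk, -⟩ := (hT H).2 g
      have hr' : (k + 2) * (k + 2) ≤ U.R (cj g H : Set (GL (Fin (k + 2)) K)) + (k + 1) := by
        rw [hR']
        exact hr
      rcases lt_trichotomy (U.R (AA (k := k + 1) (cj g H) : Set (Fin (k + 1) → K))) k with h | h | h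
      · exact Or.inr (Or.inr (tk (ha hK k hk (hM k hk) (cj g H) hD' hr' (by omega))))
      · exact Or.inr (Or.inl (t1 (hc hK k hk ih (cj g H) hD' hr' h)))
      · exact Or.inl (t0 (hb hK (k + 1) (cj g H) hD' (by omega)))
    by_cases hex : ∃ v : Fin (k + 2) → K, v ≠ 0 ∧ Tyk H v
    · obtain ⟨v, hv, hvk⟩ := hex
      obtain ⟨χ, hχ, hle⟩ := hA hk H v hvk
      exact Or.inr (Or.inr ⟨χ, hχ, (hE hK (k + 1) H hD hr χ hχ).2 hle⟩)
    · push Not at hex
      have h01 : ∀ v : Fin (k + 2) → K, v ≠ 0 → Ty0 H v ∨ Ty1 H v := by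
        intro v hv
        rcases htype v hv with h | h | h
        · exact Or.inl h
        · exact Or.inr h
        · exact absurd h (hex v hv)
      rcases hB hk H h01 with h | ⟨u, hu, hle⟩
      · exact Or.inl h
      · exact Or.inr (Or.inl ⟨u, hu, (hE hK (k + 1) H hD hr u hu).1 hle⟩)

end Pool.Agent.H78.BCP
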